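import Pool.Agent.E8helper11.GS.Stm2

/-!
# Project GS, piece SUMMd: the sum of the reciprocals converges

Adapted from `Pool/Agent/E8helper44/GS/SUMM.lean` (helper44).
-/

set_option autoImplicit false

open Filter Topology
open scoped Classical

namespace Pool.Agent.E8helper25.GS

open Pool.Agent.E8helper11.GS

theorem Ms_succ (m : ℕ → ℕ) (k : ℕ) : Ms m (k + 1) = Ms m k + m k := by
  simp [Ms, Finset.sum_range_succ]

theorem Ms_mono (m : ℕ → ℕ) : Monotone (Ms m) :=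
  monotone_nat_of_le_succ fun k => by rw [Ms_succ]; omega

theorem t_SUMMd : S_SUMMd := by
  intro m u δ hδ hu hpos hsub h2
  obtain ⟨k0, hk0⟩ := eventually_atTop.1 hsub
  have hm : ∀ k ≥ k0, m k ≤ 2 ^ k := by
    intro k hk
    have h1 : (m k : ℝ) ≤ (4 : ℝ) ^ ((1 / 2 : ℝ) * k) :=
      (hk0 k hk).trans (Real.rpow_le_rpow_of_exponent_le (by norm_num)
        (mul_le_mul_of_nonneg_right hδ (Nat.cast_nonneg k)))
    have h3 : (4 : ℝ) ^ ((1 / 2 : ℝ) * k) = (2 : ℝ) ^ k := by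
      rw [Real.rpow_mul (by norm_num), ← Real.sqrt_eq_rpow, show (4 : ℝ) = 2 ^ 2 by norm_num,
        Real.sqrt_sq (by norm_num), Real.rpow_natCast]
    rw [h3] at h1
    exact_mod_cast h1
  have hMs : ∀ k, Ms m k ≤ Ms m k0 + 2 ^ k := by
    intro k
    induction k with
    | zero =>
      have := Ms_mono m (Nat.zero_le k0)
      omega
    | succ k ih =>
      by_cases hk : k0 ≤ k
      · have h1 := Ms_succ m k
        have h2 := hm k hk
        have h3 : (2 : ℕ) ^ (k + 1) = 2 ^ k + 2 ^ k := by ring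
        omega
      · exact (Ms_mono m (show k + 1 ≤ k0 by omega)).trans (Nat.le_add_right _ _)
  generalize Ms m k0 = C at hMs
  rw [← summable_nat_add_iff (C + 1)]
  have hs : Summable (fun n : ℕ => 4 * (1 / ((n + 1 : ℕ) : ℝ) ^ 2)) :=
    ((summable_nat_add_iff 1).2 (Real.summable_one_div_nat_pow.2 (by norm_num : 1 < 2))).mul_left 4
  refine Summable.of_nonneg_of_le (fun n => by positivity) (fun n => ?_) hs
  obtain ⟨k, hk1, hk2⟩ : ∃ k : ℕ, 2 ^ k ≤ n + 1 ∧ n + 1 < 2 ^ (k + 1) :=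
    ⟨Nat.log 2 (n + 1), Nat.pow_log_le_self 2 (by omega),
      Nat.lt_pow_succ_log_self (by norm_num) _⟩
  have h5 : ¬ (n + (C + 1)) < Ms m k := by
    have := hMs k
    omega
  have h6 : 4 ^ k ≤ u (n + (C + 1)) := by
    by_contra h7
    exact h5 ((hpos _ _).1 (by omega))
  have h8 : (n + 1) ^ 2 ≤ 4 * u (n + (C + 1)) := by
    have h9 : (n + 1) ^ 2 ≤ (2 ^ (k + 1)) ^ 2 := Nat.pow_le_pow_left hk2.le 2
    have h10 : ((2 : ℕ) ^ (k + 1)) ^ 2 = 4 * 4 ^ k := by
      rw [← pow_mul, mul_comm, pow_mul, pow_succ]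
      norm_num
      ring
    omega
  have h9 : (((n + 1 : ℕ)) : ℝ) ^ 2 ≤ 4 * (u (n + (C + 1)) : ℝ) := by exact_mod_cast h8
  have h10 : (0 : ℝ) < u (n + (C + 1)) := by
    have := h2 (n + (C + 1))
    exact_mod_cast (by omega : 0 < u (n + (C + 1)))
  rw [mul_one_div, div_le_div_iff₀ h10 (by positivity)]
  linarith

end Pool.Agent.E8helper25.GS
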